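import Pool.Agent.U610.PC.Stm

/-!
# Project PC (helper610), package MAIN (helper373)
-/

set_option autoImplicit false

namespace Pool.Agent.U373.PC

open Polynomial Pool.Agent.TH766.HP Pool.Agent.TH783.CE Pool.Agent.U610.PC

/-- solvability of the quadratic equation at `a` -/
def Sol {m : ℕ} (A : Matrix (Fin (m + 1)) (Fin (m + 1)) ℚ[X]) (a : ℚ) : Prop :=
  ∃ y : Fin (m + 1) → ℚ, y 0 = 1 ∧ y ⬝ᵥ (A.map (Polynomial.eval a)).mulVec y = 0

/-- infinitely many elements with a pole at a prime of a rich set -/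
lemma exists_pole {Q : Set ℕ} (hQ : Rich Q) (E : Set ℚ) (hE : E.Finite) :
    ∃ (p : ℕ) (_ : Fact p.Prime) (b : ℚ), p ∈ Q ∧ 1 < ‖(b : ℚ_[p])‖ ∧ b ∉ E := by
  obtain ⟨p, hp, hpQ, -, -⟩ := hQ ∅ 0 (fun f hf => absurd hf (Finset.notMem_empty f))
  have hp1 : (1 : ℚ) < p := by exact_mod_cast hp.out.one_lt
  have hinj : Function.Injective (fun k : ℕ => ((p : ℚ) ^ (k + 1))⁻¹) := by
    intro k l hkl
    have h1 : (p : ℚ) ^ (k + 1) = (p : ℚ) ^ (l + 1) := inv_injective hkl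
    have h2 := (pow_right_injective₀ (by linarith : (0 : ℚ) < p) hp1.ne') h1
    omega
  have hinf : (Set.range (fun k : ℕ => ((p : ℚ) ^ (k + 1))⁻¹)).Infinite :=
    Set.infinite_range_of_injective hinj
  obtain ⟨b, ⟨k, hk⟩, hbE⟩ := hinf.exists_notMem_finite hE
  refine ⟨p, hp, b, hpQ, ?_, hbE⟩
  have hk' : b = ((p : ℚ) ^ (k + 1))⁻¹ := hk.symm
  rw [hk']
  push_cast
  rw [norm_inv, norm_pow, Padic.norm_p, inv_pow, inv_inv]
  exact one_lt_pow₀ (by exact_mod_cast hp.out.one_lt) (by omega)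

lemma zeros_finite {n : ℕ} (D : Fin n → ℤ[X]) (hD : ∀ i, D i ≠ 0) :
    {a : ℚ | ∃ i, aeval a (D i) = 0}.Finite := by
  have h : {a : ℚ | ∃ i, aeval a (D i) = 0} = ⋃ i, {a : ℚ | aeval a (D i) = 0} := by
    ext a
    simp
  rw [h]
  refine Set.finite_iUnion (fun i => ?_)
  have hne : (D i).map (Int.castRingHom ℚ) ≠ 0 := by
    rw [Ne, Polynomial.map_eq_zero_iff (RingHom.injective_int _)]
    exact hD i
  refine (Polynomial.finite_setOfPred_isRoot hne).subset (fun a ha => ?_)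
  have ha' : aeval a (D i) = 0 := ha
  show ((D i).map (Int.castRingHom ℚ)).IsRoot a
  rw [Polynomial.IsRoot.def, Polynomial.eval_map]
  exact ha'

/-- the dichotomy for one family -/
lemma claim (hD : S_DICH) (hP : S_PERT) (hR : S_RK2) (hG : S_DIAG) {Q : Set ℕ} (hQ : Rich Q)
    {m : ℕ} (A : Matrix (Fin (m + 1)) (Fin (m + 1)) ℚ[X]) (hA : A.IsSymm)
    (hpole : ∀ a : ℚ, Sol A a → ∀ (p : ℕ) [Fact p.Prime], p ∈ Q → ‖(a : ℚ_[p])‖ ≤ 1) :
    ∃ Z : Set ℚ, Thin Z ∧ ((∀ a : ℚ, a ∉ Z → ¬ Sol A a) ∨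
      ∃ (n : ℕ) (D : Fin n → ℤ[X]), Obstr D ∧
        ∀ a : ℚ, a ∉ Z → Sol A a → Iso fun i => (aeval a (D i) : ℚ)) := by
  have key : ∀ E : Set ℚ, E.Finite → (∀ b : ℚ, b ∉ E → Sol A b) → False := by
    intro E hE h
    obtain ⟨p, hp, b, hpQ, hb, hbE⟩ := exists_pole hQ E hE
    exact absurd (hpole b (h b hbE) p hpQ) (not_le.2 hb)
  rcases hG m A hA with h | ⟨n, D, hD0, hF⟩
  · exact (key _ h (fun b hb => by
      by_contra hc
      exact hb hc)).elim
  · set F : Set ℚ := {a : ℚ | ¬ ((∃ y : Fin (m + 1) → ℚ, y 0 = 1 ∧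
      y ⬝ᵥ (A.map (Polynomial.eval a)).mulVec y = 0) ↔
        Iso fun i => (aeval a (D i) : ℚ))} with hFdef
    have hiff : ∀ a : ℚ, a ∉ F → (Sol A a ↔ Iso fun i => (aeval a (D i) : ℚ)) := by
      intro a ha
      by_contra hc
      exact ha hc
    rcases Nat.lt_or_ge 2 n with hn | hn
    · rcases hD n hn D hD0 with hgood | hobs
      · refine ⟨F ∪ {a : ℚ | ∃ i, aeval a (D i) = 0},
          Thin.of_finite (hF.union (zeros_finite D hD0)), Or.inl ?_⟩
        intro a ha hsol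
        have ha1 : a ∉ F := fun h => ha (Or.inl h)
        have ha2 : ∀ i, aeval a (D i) ≠ 0 := fun i h => ha (Or.inr ⟨i, h⟩)
        obtain ⟨p, hp, b, hpQ, hb, hbF, hiso⟩ :=
          hP n hn D hgood Q hQ a ha2 ((hiff a ha1).1 hsol) F hF
        exact absurd (hpole b ((hiff b hbF).2 hiso) p hpQ) (not_le.2 hb)
      · exact ⟨F, Thin.of_finite hF, Or.inr ⟨n, D, hobs, fun a ha h => (hiff a ha).1 h⟩⟩
    · rcases hR n hn D hD0 with hthin | hfin
      · refine ⟨F ∪ {a : ℚ | Iso fun i => (aeval a (D i) : ℚ)},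
          (Thin.of_finite hF).union hthin, Or.inl ?_⟩
        intro a ha hsol
        exact ha (Or.inr ((hiff a (fun h => ha (Or.inl h))).1 hsol))
      · refine (key (F ∪ {a : ℚ | ¬ Iso fun i => (aeval a (D i) : ℚ)}) (hF.union hfin)
          (fun b hb => ?_)).elim
        refine (hiff b (fun h => hb (Or.inl h))).2 ?_
        by_contra hc
        exact hb (Or.inr hc)

lemma iso_cast {n : ℕ} (D : Fin n → ℤ[X]) (u : ℤ) (p : ℕ) [Fact p.Prime]
    (h : Iso fun i => (aeval ((u : ℤ) : ℚ) (D i) : ℚ)) :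
    Iso fun i => (((D i).eval u : ℤ) : ℚ_[p]) := by
  obtain ⟨y, hy, hs⟩ := h
  refine ⟨fun i => ((y i : ℚ) : ℚ_[p]), ?_, ?_⟩
  · intro h0
    apply hy
    funext i
    have h1 := congrFun h0 i
    simp only [Pi.zero_apply] at h1
    exact_mod_cast h1
  · have e : ∀ i, (aeval ((u : ℤ) : ℚ) (D i) : ℚ) = (((D i).eval u : ℤ) : ℚ) := by
      intro i
      have := Polynomial.aeval_algebraMap_apply_eq_algebraMap_eval (A := ℚ) u (D i)
      simpa using this
    have h2 : ((∑ i, (((D i).eval u : ℤ) : ℚ) * y i ^ 2 : ℚ) : ℚ_[p]) = 0 := by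
      have h3 : ∑ i, (((D i).eval u : ℤ) : ℚ) * y i ^ 2 = 0 := by
        rw [← hs]
        refine Finset.sum_congr rfl (fun i _ => ?_)
        show _ = (aeval ((u : ℤ) : ℚ) (D i) : ℚ) * y i ^ 2
        rw [e i]
      rw [h3]
      simp
    push_cast at h2
    exact h2

/-- **package MAIN** -/
theorem t_MAIN (hD : S_DICH) (hP : S_PERT) (hA : S_APT) (hR : S_RK2) (hG : S_DIAG) : S_MAIN := by
  intro Q hQ s m A hsymm hpole D hthin B
  have hc : ∀ i, ∃ Z : Set ℚ, Thin Z ∧ ((∀ a : ℚ, a ∉ Z → ¬ Sol (A i) a) ∨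
      ∃ (n : ℕ) (D : Fin n → ℤ[X]), Obstr D ∧
        ∀ a : ℚ, a ∉ Z → Sol (A i) a → Iso fun i => (aeval a (D i) : ℚ)) := fun i =>
    claim hD hP hR hG hQ (A i) (hsymm i) (fun a ha p _ hp => hpole i a ha p hp)
  choose Z hZ hcase using hc
  have hind : ∀ J : Finset (Fin s), ∃ (M : ℕ) (a₀ : ℤ), 0 < M ∧ ∀ u : ℤ, (M : ℤ) ∣ u - a₀ →
      ∀ i ∈ J, ((u : ℤ) : ℚ) ∉ Z i → ¬ Sol (A i) ((u : ℤ) : ℚ) := by
    classical
    intro J
    induction J using Finset.induction_on with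
    | empty => exact ⟨1, 0, one_pos, fun u _ i hi => absurd hi (Finset.notMem_empty i)⟩
    | insert i J hiJ ih =>
      obtain ⟨M, a₀, hM, hJ⟩ := ih
      rcases hcase i with h | ⟨n, D', hobs, hiso⟩
      · refine ⟨M, a₀, hM, fun u hu j hj hjZ => ?_⟩
        rcases Finset.mem_insert.1 hj with rfl | hj
        · exact h _ hjZ
        · exact hJ u hu j hj hjZ
      · obtain ⟨p, hp, a₁, hpM, hp1⟩ := hobs M
        have hcop : IsCoprime (M : ℤ) ((p : ℤ) ^ 2) := by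
          apply IsCoprime.pow_right
          rw [Nat.isCoprime_iff_coprime]
          exact (Nat.coprime_of_lt_prime hM.ne' hpM hp.out).symm
        obtain ⟨x, y, hxy⟩ := hcop
        refine ⟨M * p ^ 2, a₁ * (x * M) + a₀ * (y * (p : ℤ) ^ 2), by
          have := hp.out.pos
          positivity, fun u hu j hj hjZ => ?_⟩
        have hu' : ((M : ℤ) * (p : ℤ) ^ 2) ∣ u - (a₁ * (x * M) + a₀ * (y * (p : ℤ) ^ 2)) := by
          have := hu
          push_cast at this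
          exact this
        have hu1 : (M : ℤ) ∣ u - a₀ := by
          have h1 : (M : ℤ) ∣ u - (a₁ * (x * M) + a₀ * (y * (p : ℤ) ^ 2)) :=
            (Dvd.intro _ rfl).trans hu'
          have h2 : u - a₀ = (u - (a₁ * (x * M) + a₀ * (y * (p : ℤ) ^ 2))) +
              M * (x * (a₁ - a₀)) := by
            have h3 : y * (p : ℤ) ^ 2 = 1 - x * M := by linarith
            rw [h3]; ring
          rw [h2]
          exact dvd_add h1 (Dvd.intro _ rfl)
        have hu2 : (p : ℤ) ^ 2 ∣ u - a₁ := by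
          have h1 : (p : ℤ) ^ 2 ∣ u - (a₁ * (x * M) + a₀ * (y * (p : ℤ) ^ 2)) :=
            (Dvd.intro_left _ rfl).trans hu'
          have h2 : u - a₁ = (u - (a₁ * (x * M) + a₀ * (y * (p : ℤ) ^ 2))) +
              (p : ℤ) ^ 2 * (y * (a₀ - a₁)) := by
            have h3 : x * (M : ℤ) = 1 - y * (p : ℤ) ^ 2 := by linarith
            rw [h3]; ring
          rw [h2]
          exact dvd_add h1 (Dvd.intro _ rfl)
        rcases Finset.mem_insert.1 hj with rfl | hj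
        · intro hsol
          exact hp1 u hu2 (iso_cast D' u p (hiso _ hjZ hsol))
        · exact hJ u hu1 j hj hjZ
  obtain ⟨M, a₀, hM, hall⟩ := hind Finset.univ
  have hth : Thin (D ∪ ⋃ i ∈ (Set.univ : Set (Fin s)), Z i) :=
    hthin.union (Thin.biUnion Set.finite_univ (fun i _ => hZ i))
  obtain ⟨u, hBu, hMu, hu⟩ := hA _ hth M a₀ hM B
  refine ⟨u, hBu, fun h => hu (Or.inl h), fun i => ?_⟩
  refine hall u hMu i (Finset.mem_univ i) (fun h => hu (Or.inr ?_))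
  exact Set.mem_biUnion (Set.mem_univ i) h

end Pool.Agent.U373.PC
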