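import Pool.Agent.U373.PC.T_MAIN

/-!
# Project PC (helper610), package MAIN: the whole arithmetic progression (helper373)
-/

set_option autoImplicit false

namespace Pool.Agent.U373.PC

open Polynomial Pool.Agent.TH766.HP Pool.Agent.TH783.CE Pool.Agent.U610.PC

/-- All the integers of an arithmetic progression outside a thin set. -/
theorem t_MAIN2 (hD : S_DICH) (hP : S_PERT) (hR : S_RK2) (hG : S_DIAG) :
    ∀ (Q : Set ℕ), Rich Q → ∀ (s : ℕ) (m : Fin s → ℕ)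
      (A : ∀ i, Matrix (Fin (m i + 1)) (Fin (m i + 1)) ℚ[X]), (∀ i, (A i).IsSymm) →
      (∀ (i : Fin s) (a : ℚ), (∃ y : Fin (m i + 1) → ℚ, y 0 = 1 ∧
        y ⬝ᵥ ((A i).map (Polynomial.eval a)).mulVec y = 0) →
          ∀ (p : ℕ) [Fact p.Prime], p ∈ Q → ‖(a : ℚ_[p])‖ ≤ 1) →
      ∃ (M : ℕ) (a₀ : ℤ) (Z : Set ℚ), 0 < M ∧ Thin Z ∧ ∀ u : ℤ, (M : ℤ) ∣ u - a₀ →
        ((u : ℤ) : ℚ) ∉ Z → ∀ i, ¬ ∃ y : Fin (m i + 1) → ℚ, y 0 = 1 ∧
          y ⬝ᵥ ((A i).map (Polynomial.eval ((u : ℤ) : ℚ))).mulVec y = 0 := by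
  intro Q hQ s m A hsymm hpole
  have hc : ∀ i, ∃ Z : Set ℚ, Thin Z ∧ ((∀ a : ℚ, a ∉ Z → ¬ Sol (A i) a) ∨
      ∃ (n : ℕ) (D : Fin n → ℤ[X]), Obstr D ∧
        ∀ a : ℚ, a ∉ Z → Sol (A i) a → Iso fun i => (aeval a (D i) : ℚ)) := fun i =>
    claim hD hP hR hG hQ (A i) (hsymm i) (fun a ha p _ hp => hpole i a ha p hp)
  choose Z hZ hcase using hc
  have hind : ∀ J : Finset (Fin s), ∃ (M : ℕ) (a₀ : ℤ), 0 < M ∧ ∀ u : ℤ, (M : ℤ) ∣ u - a₀ →
      ∀ i ∈ J, ((u : ℤ) : ℚ) ∉ Z i → ¬ Sol (A i) ((u : ℤ) : ℚ) := by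
    classical
    intro J
    induction J using Finset.induction_on with
    | empty => exact ⟨1, 0, one_pos, fun u _ i hi => absurd hi (Finset.notMem_empty i)⟩
    | insert i J hiJ ih =>
      obtain ⟨M, a₀, hM, hJ⟩ := ih
      rcases hcase i with h | ⟨n, D', hobs, hiso⟩
      · refine ⟨M, a₀, hM, fun u hu j hj hjZ => ?_⟩
        rcases Finset.mem_insert.1 hj with rfl | hj
        · exact h _ hjZ
        · exact hJ u hu j hj hjZ
      · obtain ⟨p, hp, a₁, hpM, hp1⟩ := hobs M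
        have hcop : IsCoprime (M : ℤ) ((p : ℤ) ^ 2) := by
          apply IsCoprime.pow_right
          rw [Nat.isCoprime_iff_coprime]
          exact (Nat.coprime_of_lt_prime hM.ne' hpM hp.out).symm
        obtain ⟨x, y, hxy⟩ := hcop
        refine ⟨M * p ^ 2, a₁ * (x * M) + a₀ * (y * (p : ℤ) ^ 2), by
          have := hp.out.pos
          positivity, fun u hu j hj hjZ => ?_⟩
        have hu' : ((M : ℤ) * (p : ℤ) ^ 2) ∣ u - (a₁ * (x * M) + a₀ * (y * (p : ℤ) ^ 2)) := by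
          have := hu
          push_cast at this
          exact this
        have hu1 : (M : ℤ) ∣ u - a₀ := by
          have h1 : (M : ℤ) ∣ u - (a₁ * (x * M) + a₀ * (y * (p : ℤ) ^ 2)) :=
            (Dvd.intro _ rfl).trans hu'
          have h2 : u - a₀ = (u - (a₁ * (x * M) + a₀ * (y * (p : ℤ) ^ 2))) +
              M * (x * (a₁ - a₀)) := by
            have h3 : y * (p : ℤ) ^ 2 = 1 - x * M := by linarith
            rw [h3]; ring
          rw [h2]
          exact dvd_add h1 (Dvd.intro _ rfl)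
        have hu2 : (p : ℤ) ^ 2 ∣ u - a₁ := by
          have h1 : (p : ℤ) ^ 2 ∣ u - (a₁ * (x * M) + a₀ * (y * (p : ℤ) ^ 2)) :=
            (Dvd.intro_left _ rfl).trans hu'
          have h2 : u - a₁ = (u - (a₁ * (x * M) + a₀ * (y * (p : ℤ) ^ 2))) +
              (p : ℤ) ^ 2 * (y * (a₀ - a₁)) := by
            have h3 : x * (M : ℤ) = 1 - y * (p : ℤ) ^ 2 := by linarith
            rw [h3]; ring
          rw [h2]
          exact dvd_add h1 (Dvd.intro _ rfl)
        rcases Finset.mem_insert.1 hj with rfl | hj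
        · intro hsol
          exact hp1 u hu2 (iso_cast D' u p (hiso _ hjZ hsol))
        · exact hJ u hu1 j hj hjZ
  obtain ⟨M, a₀, hM, hall⟩ := hind Finset.univ
  refine ⟨M, a₀, ⋃ i ∈ (Set.univ : Set (Fin s)), Z i, hM,
    Thin.biUnion Set.finite_univ (fun i _ => hZ i), fun u hMu hu i => ?_⟩
  exact hall u hMu i (Finset.mem_univ i) (fun h => hu (Set.mem_biUnion (Set.mem_univ i) h))

end Pool.Agent.U373.PC
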