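import Pool.Agent.U373.PC.T_MAIN
import Pool.Agent.U610.PC.StmC

/-!
# Project PC (helper610), package MAINC: finite conjunctions (helper373)
-/

set_option autoImplicit false

namespace Pool.Agent.U373.PC.C

open Polynomial Pool.Agent.TH766.HP Pool.Agent.TH783.CE Pool.Agent.U610.PC

/-- the four types of a quadratic equation -/
lemma cls (hD : S_DICH) (hR : S_RK2) (hG : S_DIAG)
    {m : ℕ} (A : Matrix (Fin (m + 1)) (Fin (m + 1)) ℚ[X]) (hA : A.IsSymm) :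
    (∃ Z : Set ℚ, Thin Z ∧ ∀ a : ℚ, a ∉ Z → ¬ Pool.Agent.U610.PC.Sol A a) ∨
    (∃ (E : Set ℚ) (n : ℕ) (D : Fin n → ℤ[X]), E.Finite ∧ Obstr D ∧
      ∀ a : ℚ, a ∉ E → Pool.Agent.U610.PC.Sol A a → Iso fun i => (aeval a (D i) : ℚ)) ∨
    (∃ E : Set ℚ, E.Finite ∧ ((∀ a : ℚ, a ∉ E → Pool.Agent.U610.PC.Sol A a) ∨
      ∃ (n : ℕ) (D : Fin n → ℤ[X]), 3 ≤ n ∧ Good D ∧ (∀ i, D i ≠ 0) ∧
        ∀ a : ℚ, a ∉ E → (Pool.Agent.U610.PC.Sol A a ↔ Iso fun i => (aeval a (D i) : ℚ)))) := by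
  rcases hG m A hA with h | ⟨n, D, hD0, hF⟩
  · refine Or.inr (Or.inr ⟨_, h, Or.inl (fun b hb => ?_)⟩)
    by_contra hc
    exact hb hc
  · set F : Set ℚ := {a : ℚ | ¬ ((∃ y : Fin (m + 1) → ℚ, y 0 = 1 ∧
      y ⬝ᵥ (A.map (Polynomial.eval a)).mulVec y = 0) ↔
        Iso fun i => (aeval a (D i) : ℚ))} with hFdef
    have hiff : ∀ a : ℚ, a ∉ F →
        (Pool.Agent.U610.PC.Sol A a ↔ Iso fun i => (aeval a (D i) : ℚ)) := by
      intro a ha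
      by_contra hc
      exact ha hc
    rcases Nat.lt_or_ge 2 n with hn | hn
    · rcases hD n hn D hD0 with hgood | hobs
      · exact Or.inr (Or.inr ⟨F, hF, Or.inr ⟨n, D, hn, hgood, hD0, hiff⟩⟩)
      · exact Or.inr (Or.inl ⟨F, n, D, hF, hobs, fun a ha h => (hiff a ha).1 h⟩)
    · rcases hR n hn D hD0 with hthin | hfin
      · refine Or.inl ⟨F ∪ {a : ℚ | Iso fun i => (aeval a (D i) : ℚ)},
          (Thin.of_finite hF).union hthin, ?_⟩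
        intro a ha hsol
        exact ha (Or.inr ((hiff a (fun h => ha (Or.inl h))).1 hsol))
      · refine Or.inr (Or.inr ⟨F ∪ {a : ℚ | ¬ Iso fun i => (aeval a (D i) : ℚ)}, hF.union hfin,
          Or.inl (fun b hb => ?_)⟩)
        refine (hiff b (fun h => hb (Or.inl h))).2 ?_
        by_contra hc
        exact hb (Or.inr hc)

/-- the dichotomy for a conjunction -/
lemma claimC (hD : S_DICH) (hP : S_PERTC) (hR : S_RK2) (hG : S_DIAG) {Q : Set ℕ} (hQ : Rich Q)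
    {c : ℕ} (m : Fin c → ℕ) (A : ∀ j, Matrix (Fin (m j + 1)) (Fin (m j + 1)) ℚ[X])
    (hA : ∀ j, (A j).IsSymm)
    (hpole : ∀ a : ℚ, (∀ j, Pool.Agent.U610.PC.Sol (A j) a) →
      ∀ (p : ℕ) [Fact p.Prime], p ∈ Q → ‖(a : ℚ_[p])‖ ≤ 1) :
    ∃ Z : Set ℚ, Thin Z ∧ ((∀ a : ℚ, a ∉ Z → ¬ ∀ j, Pool.Agent.U610.PC.Sol (A j) a) ∨
      ∃ (n : ℕ) (D : Fin n → ℤ[X]), Obstr D ∧
        ∀ a : ℚ, a ∉ Z → (∀ j, Pool.Agent.U610.PC.Sol (A j) a) →
          Iso fun i => (aeval a (D i) : ℚ)) := by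
  classical
  by_cases ht : ∃ j, ∃ Z : Set ℚ, Thin Z ∧ ∀ a : ℚ, a ∉ Z → ¬ Pool.Agent.U610.PC.Sol (A j) a
  · obtain ⟨j, Z, hZ, hZ'⟩ := ht
    exact ⟨Z, hZ, Or.inl (fun a ha h => hZ' a ha (h j))⟩
  by_cases ho : ∃ j, ∃ (E : Set ℚ) (n : ℕ) (D : Fin n → ℤ[X]), E.Finite ∧ Obstr D ∧
      ∀ a : ℚ, a ∉ E → Pool.Agent.U610.PC.Sol (A j) a → Iso fun i => (aeval a (D i) : ℚ)
  · obtain ⟨j, E, n, D, hE, hobs, h⟩ := ho
    exact ⟨E, Thin.of_finite hE, Or.inr ⟨n, D, hobs, fun a ha h' => h a ha (h' j)⟩⟩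
  have hcg : ∀ j, ∃ E : Set ℚ, E.Finite ∧ ((∀ a : ℚ, a ∉ E → Pool.Agent.U610.PC.Sol (A j) a) ∨
      ∃ (n : ℕ) (D : Fin n → ℤ[X]), 3 ≤ n ∧ Good D ∧ (∀ i, D i ≠ 0) ∧
        ∀ a : ℚ, a ∉ E →
          (Pool.Agent.U610.PC.Sol (A j) a ↔ Iso fun i => (aeval a (D i) : ℚ))) := by
    intro j
    rcases cls hD hR hG (A j) (hA j) with h | h | h
    · exact (ht ⟨j, h⟩).elim
    · exact (ho ⟨j, h⟩).elim
    · exact h
  choose E hE hcase using hcg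
  have hg : ∀ j : {j : Fin c // ¬ ∀ a : ℚ, a ∉ E j → Pool.Agent.U610.PC.Sol (A j) a},
      ∃ (n : ℕ) (D : Fin n → ℤ[X]), 3 ≤ n ∧ Good D ∧ (∀ i, D i ≠ 0) ∧
        ∀ a : ℚ, a ∉ E j.1 →
          (Pool.Agent.U610.PC.Sol (A j.1) a ↔ Iso fun i => (aeval a (D i) : ℚ)) :=
    fun j => (hcase j.1).resolve_left j.2
  choose n D hn hgood hD0 hiff using hg
  have hEall : (⋃ j, E j).Finite := Set.finite_iUnion hE
  have hzer : (⋃ j, {a : ℚ | ∃ i, aeval a (D j i) = 0}).Finite :=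
    Set.finite_iUnion (fun j => zeros_finite (D j) (hD0 j))
  refine ⟨(⋃ j, E j) ∪ ⋃ j, {a : ℚ | ∃ i, aeval a (D j i) = 0},
    Thin.of_finite (hEall.union hzer), Or.inl ?_⟩
  intro a ha hsol
  have ha1 : ∀ j, a ∉ E j := fun j h => ha (Or.inl (Set.mem_iUnion.2 ⟨j, h⟩))
  have ha2 : ∀ j i, aeval a (D j i) ≠ 0 :=
    fun j i h => ha (Or.inr (Set.mem_iUnion.2 ⟨j, ⟨i, h⟩⟩))
  obtain ⟨p, hp, b, hpQ, hb, hbE, hiso⟩ :=
    hP _ n hn D hgood Q hQ a ha2 (fun j => (hiff j a (ha1 j.1)).1 (hsol j.1)) (⋃ j, E j) hEall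
  have hbE' : ∀ j, b ∉ E j := fun j h => hbE (Set.mem_iUnion.2 ⟨j, h⟩)
  refine absurd (hpole b (fun j => ?_) p hpQ) (not_le.2 hb)
  by_cases hj : ∀ a : ℚ, a ∉ E j → Pool.Agent.U610.PC.Sol (A j) a
  · exact hj b (hbE' j)
  · exact (hiff ⟨j, hj⟩ b (hbE' j)).2 (hiso ⟨j, hj⟩)

/-- **package MAINC** -/
theorem t_MAINC (hD : S_DICH) (hP : S_PERTC) (hR : S_RK2) (hG : S_DIAG) : S_MAINC := by
  intro Q hQ s c m A hsymm hpole
  have hc : ∀ i, ∃ Z : Set ℚ, Thin Z ∧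
      ((∀ a : ℚ, a ∉ Z → ¬ ∀ j, Pool.Agent.U610.PC.Sol (A i j) a) ∨
      ∃ (n : ℕ) (D : Fin n → ℤ[X]), Obstr D ∧
        ∀ a : ℚ, a ∉ Z → (∀ j, Pool.Agent.U610.PC.Sol (A i j) a) →
          Iso fun i => (aeval a (D i) : ℚ)) := fun i =>
    claimC hD hP hR hG hQ (m i) (A i) (hsymm i) (fun a ha p _ hp => hpole i a ha p hp)
  choose Z hZ hcase using hc
  have hind : ∀ J : Finset (Fin s), ∃ (M : ℕ) (a₀ : ℤ), 0 < M ∧ ∀ u : ℤ, (M : ℤ) ∣ u - a₀ →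
      ∀ i ∈ J, ((u : ℤ) : ℚ) ∉ Z i →
        ¬ ∀ j, Pool.Agent.U610.PC.Sol (A i j) ((u : ℤ) : ℚ) := by
    classical
    intro J
    induction J using Finset.induction_on with
    | empty => exact ⟨1, 0, one_pos, fun u _ i hi => absurd hi (Finset.notMem_empty i)⟩
    | insert i J hiJ ih =>
      obtain ⟨M, a₀, hM, hJ⟩ := ih
      rcases hcase i with h | ⟨n, D', hobs, hiso⟩
      · refine ⟨M, a₀, hM, fun u hu j hj hjZ => ?_⟩
        rcases Finset.mem_insert.1 hj with rfl | hj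
        · exact h _ hjZ
        · exact hJ u hu j hj hjZ
      · obtain ⟨p, hp, a₁, hpM, hp1⟩ := hobs M
        have hcop : IsCoprime (M : ℤ) ((p : ℤ) ^ 2) := by
          apply IsCoprime.pow_right
          rw [Nat.isCoprime_iff_coprime]
          exact (Nat.coprime_of_lt_prime hM.ne' hpM hp.out).symm
        obtain ⟨x, y, hxy⟩ := hcop
        refine ⟨M * p ^ 2, a₁ * (x * M) + a₀ * (y * (p : ℤ) ^ 2), by
          have := hp.out.pos
          positivity, fun u hu j hj hjZ => ?_⟩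
        have hu' : ((M : ℤ) * (p : ℤ) ^ 2) ∣ u - (a₁ * (x * M) + a₀ * (y * (p : ℤ) ^ 2)) := by
          have := hu
          push_cast at this
          exact this
        have hu1 : (M : ℤ) ∣ u - a₀ := by
          have h1 : (M : ℤ) ∣ u - (a₁ * (x * M) + a₀ * (y * (p : ℤ) ^ 2)) :=
            (Dvd.intro _ rfl).trans hu'
          have h2 : u - a₀ = (u - (a₁ * (x * M) + a₀ * (y * (p : ℤ) ^ 2))) +
              M * (x * (a₁ - a₀)) := by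
            have h3 : y * (p : ℤ) ^ 2 = 1 - x * M := by linarith
            rw [h3]; ring
          rw [h2]
          exact dvd_add h1 (Dvd.intro _ rfl)
        have hu2 : (p : ℤ) ^ 2 ∣ u - a₁ := by
          have h1 : (p : ℤ) ^ 2 ∣ u - (a₁ * (x * M) + a₀ * (y * (p : ℤ) ^ 2)) :=
            (Dvd.intro_left _ rfl).trans hu'
          have h2 : u - a₁ = (u - (a₁ * (x * M) + a₀ * (y * (p : ℤ) ^ 2))) +
              (p : ℤ) ^ 2 * (y * (a₀ - a₁)) := by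
            have h3 : x * (M : ℤ) = 1 - y * (p : ℤ) ^ 2 := by linarith
            rw [h3]; ring
          rw [h2]
          exact dvd_add h1 (Dvd.intro _ rfl)
        rcases Finset.mem_insert.1 hj with rfl | hj
        · intro hsol
          exact hp1 u hu2 (iso_cast D' u p (hiso _ hjZ hsol))
        · exact hJ u hu1 j hj hjZ
  obtain ⟨M, a₀, hM, hall⟩ := hind Finset.univ
  refine ⟨M, a₀, ⋃ i ∈ (Set.univ : Set (Fin s)), Z i, hM,
    Thin.biUnion Set.finite_univ (fun i _ => hZ i), fun u hMu hu i => ?_⟩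
  exact hall u hMu i (Finset.mem_univ i) (fun h => hu (Set.mem_biUnion (Set.mem_univ i) h))

end Pool.Agent.U373.PC.C
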